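import Pool.Agent.Q6.Nip.Main

/-!
Norm groups of Kummer extensions of NIP fields.
-/

set_option autoImplicit false
set_option maxHeartbeats 400000

namespace Pool.Agent.Results.MP_3554b5_lc.CommonNorms

open Pool.Agent.Q6.Nip Pool.Agent.W882.Nip3 Quaternion

/-- Let `K` be an NIP field (the hypothesis of `S14569`) and `ℓ` a prime number. There is a number
`m`, depending only on `ℓ` and the theory of `K`, such that the following holds for every field
`K'` elementarily equivalent to `K` (for example `K' = K`) with a primitive `ℓ`-th root of unity.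
Write `N(a)` for the group of the nonzero elements of `K'` which are norms from `K'(a^(1/ℓ))`.

(1) The intersection of finitely many groups `N(a)` is the intersection of at most `m` of them.

(2) Let `H` be a group of nonzero elements of `K'` such that `H ⊓ N(a)` has finite index in `H` for
every `a` in `H`. Then the elements of `H` which are in `N(a)` for all `a` in `H` form a subgroup of
finite index in `H`. This index is at most `B ^ m` if all the indices of `H ⊓ N(a)` in `H` are at
most `B`.

(3) The nonzero `a` for which `N(a)` has finite index in the multiplicative group form a group `F`,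
and the elements of `F` which are in `N(a)` for all `a` in `F` form a subgroup of finite index
in `F`.

(4) If `ℓ = 2` and `N(a)` has finite index for all `a` then there are only finitely many quaternion
algebras over `K'` up to isomorphism. -/
theorem result (K : Type) [Field K] [FirstOrder.Ring.CompatibleRing K] (hK : NIPField K)
    (ℓ : ℕ) [Fact ℓ.Prime] :
    ∃ m : ℕ, ∀ (K' : Type) [Field K'] [FirstOrder.Ring.CompatibleRing K'],
      FirstOrder.Language.ring.ElementarilyEquivalent K K' →
      (∃ ω : K', IsPrimitiveRoot ω ℓ) →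
      (∀ S : Finset K'ˣ, ∃ T ⊆ S, T.card ≤ m ∧
        (⨅ a ∈ T, normGroup ℓ a) = ⨅ a ∈ S, normGroup ℓ a) ∧
      (∀ H : Subgroup K'ˣ, (∀ a ∈ H, (normGroup ℓ a).relIndex H ≠ 0) →
        (⨅ a ∈ H, normGroup ℓ a).relIndex H ≠ 0 ∧
        ∀ B : ℕ, (∀ a ∈ H, (normGroup ℓ a).relIndex H ≤ B) →
          (⨅ a ∈ H, normGroup ℓ a).relIndex H ≤ B ^ m) ∧
      (∃ F : Subgroup K'ˣ, (∀ a, a ∈ F ↔ (normGroup ℓ a).index ≠ 0) ∧
        (⨅ a ∈ F, normGroup ℓ a).relIndex F ≠ 0) ∧
      (ℓ = 2 → (∀ a : K'ˣ, (normGroup ℓ a).index ≠ 0) →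
        ∃ S : Finset (K'ˣ × K'ˣ), ∀ a b : K'ˣ, ∃ p ∈ S,
          Nonempty (ℍ[K',(a : K'),(b : K')] ≃ₐ[K'] ℍ[K',(p.1 : K'),(p.2 : K')])) := by
  obtain ⟨m, hm⟩ := exists_no_pat hK ℓ
  refine ⟨m, fun K' _ _ hKK' ⟨ω, hω⟩ => ?_⟩
  have hm' := hm K' hKK' ω hω
  refine ⟨cons_family hω hm', ?_, ?_, ?_⟩
  · intro H hH
    exact ⟨cons_index hω hm' H hH, fun B hB => cons_index_le hω hm' H B
      (fun a ha => ⟨hH a ha, hB a ha⟩)⟩
  · obtain ⟨F, hF⟩ := exists_fin (K := K') hω
    refine ⟨F, hF, cons_index hω hm' F (fun a ha h0 => (hF a).mp ha ?_)⟩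
    exact Subgroup.index_eq_zero_of_relIndex_eq_zero h0
  · rintro rfl h
    have h2 : (2 : K') ≠ 0 := by
      intro h2
      have h3 : ω ^ 1 = 1 := by
        have h4 : (ω - 1) ^ 2 = 0 := by
          have h5 := hω.pow_eq_one
          linear_combination h5 + (1 - ω) * h2
        have h6 : ω - 1 = 0 := by simpa using h4
        linear_combination h6
      have h7 := hω.dvd_of_pow_eq_one 1 h3
      omega
    apply finite_quat h2
    have h8 := cons_index hω hm' ⊤ (fun a _ h0 => h a (Subgroup.index_eq_zero_of_relIndex_eq_zero h0))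
    rw [Subgroup.relIndex_top_right] at h8
    simpa using h8

end Pool.Agent.Results.MP_3554b5_lc.CommonNorms
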