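import Pool.Agent.Q175.NFC.Cut6

/-!
# Definable valuation rings of fields which are NIP, `NIP_n` or NTP2

Let `K` be a field which is NIP, or `NIP_n` for some `n`, or `NTP2`. It is shown that the following
valuation rings `V` of `K` are definable in `K` in the language of rings, with parameters. It is not
assumed that `V` is henselian or that the valued field `(K, V)` is `NIP`. Here `W` is a valuation
ring over `V` of a finite extension `M` of `K`.

* The residue field of `W` has a separable extension of degree `n`, and the value group of `W` has
  a smallest convex subgroup other than `0`, which contains an element which is not `n`-divisible.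
* `V` has rank one, some norm group of `M` is not dense for `W`, and the value group of `W` is not
  `n`-divisible for some `n` which is a unit of `W`.
* The maximal ideal of `V` is principal and not `0`, and the residue field is not separably closed.

If the residue field of `W` has a separable extension of degree `n`, the value group of `W` is not
`n`-divisible and the overrings of `V` are well ordered by inclusion (for example if `V` has finite
rank), then some valuation ring `O ≠ K` which contains `V` is definable.
-/

set_option autoImplicit false

namespace Pool.Agent.Results.MP_3554b5_lc.DefinableValuations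

open Pool.Agent.W882.Nip3 Pool.Agent.Q175.NF Pool.Agent.Q175.NFC
open IsLocalRing (ResidueField)

/-- The norm group of some finite separable extension `L` of `M` is not dense for `W`: there are
`c` and `e ≠ 0` such that no norm `x` has `x - c` of value smaller than the value of `e`. -/
def NormsNotDense {M : Type} [Field M] (W : ValuationSubring M) : Prop :=
  ∃ (L : Type) (_ : Field L) (_ : Algebra M L), FiniteDimensional M L ∧
    Algebra.IsSeparable M L ∧ ∃ c e : M, e ≠ 0 ∧
      ∀ x : L, W.valuation e ≤ W.valuation (Algebra.norm M x - c)

/-- Let `K` be a field which is NIP (the hypothesis of `S14569`), or `NIP_n` for some `n`, or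
`NTP2`, and let `V` be a valuation ring of `K`. (Value groups are written multiplicatively.)

(1) Let `M` be a finite extension of `K`, `W` a valuation ring of `M` over `V`, and `F` a finite
separable extension of the residue field of `W`, of degree `n`. Let `c` be a nonunit of `W` which is
a unit in all valuation rings of `M` which properly contain `W`, and such that the value of `c` is
not an `n`-th power in the value group. Then `V` is definable.

(2) Let `M`, `W`, `F`, `n` be as in (1), and assume that some value is not an `n`-th power, and that
the valuation rings which contain `V` are well ordered by inclusion. Then a valuation ring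
`O ≠ K` of `K` which contains `V` is definable.

(3) Let `M`, `W` be as in (1), and let `V` have rank one, `W` satisfy `NormsNotDense`, and `n` be a
unit of `W` such that some value is not an `n`-th power. Then `V` is definable.

(4) Let the maximal ideal of `V` be generated by one element, not `0`, and let the residue field of
`V` be not separably closed. Then `V` is definable. -/
theorem result (K : Type) [Field K] [FirstOrder.Ring.CompatibleRing K]
    (hK : NIPField K ∨ (∃ n, NIPnField n K) ∨ NTP2Field K) (V : ValuationSubring K) :
    (∀ (M : Type) [Field M] [Algebra K M] [FiniteDimensional K M] (W : ValuationSubring M),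
      W.comap (algebraMap K M) = V →
      (∀ (F : Type) [Field F] [Algebra (ResidueField W) F] [FiniteDimensional (ResidueField W) F]
        [Algebra.IsSeparable (ResidueField W) F],
        ((∃ c : M, c ∈ W ∧ c⁻¹ ∉ W ∧ (∀ A : ValuationSubring M, W ≤ A → A ≠ W → c⁻¹ ∈ A) ∧
            ∀ g : M, W.valuation g ^ Module.finrank (ResidueField W) F ≠ W.valuation c) →
          IsDefinable (V : Set K)) ∧
        ((∃ c : M, ∀ g : M, W.valuation g ^ Module.finrank (ResidueField W) F ≠ W.valuation c) →
          (∀ s : Set (ValuationSubring K), s.Nonempty → (∀ O ∈ s, V ≤ O) →
            ∃ O ∈ s, ∀ O' ∈ s, O ≤ O') →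
          ∃ O : ValuationSubring K, V ≤ O ∧ O ≠ ⊤ ∧ IsDefinable (O : Set K))) ∧
      ((∀ O : ValuationSubring K, V ≤ O → O ≠ ⊤ → O = V) → NormsNotDense W →
        ∀ n : ℕ, W.valuation (n : M) = 1 → (∃ c : M, ∀ g : M, W.valuation g ^ n ≠ W.valuation c) →
        IsDefinable (V : Set K))) ∧
    (¬ IsSepClosed (ResidueField V) → ∀ ϖ : V, ϖ ≠ 0 →
      IsLocalRing.maximalIdeal V = Ideal.span {ϖ} → IsDefinable (V : Set K)) := by
  refine ⟨?_, ?_⟩
  · intro M _ _ _ W hW
    let iM : FirstOrder.Ring.CompatibleRing M := FirstOrder.Ring.compatibleRingOfRing M
    have hM : Tame M := tame_ext M hK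
    have hdown : IsDefinable (W : Set M) → IsDefinable (V : Set K) := by
      intro h
      have h1 := isDefinable_comap (K := K) h
      rw [← hW]
      exact h1
    refine ⟨?_, ?_⟩
    · intro F _ _ _ _
      refine ⟨?_, ?_⟩
      · rintro ⟨c, hc1, hc2, hc3, hc4⟩
        have hc0 : c ≠ 0 := by
          rintro rfl
          rw [inv_zero] at hc2
          exact hc2 W.zero_mem
        have hc5 : W.valuation c < 1 := (val_lt_one_iff_inv hc0).mpr hc2
        exact hdown (self_definable hM F hc5 (coarse_eq_self hc0 hc5 hc3) hc4)
      · rintro ⟨c, hc⟩ hwf
        exact descend hW (over_definable hM (WO.ext (V := V) hwf hW) F hc)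
    · rintro hr hg n hn ⟨c, hc⟩
      have hn0 : 0 < n := by
        rcases Nat.eq_zero_or_pos n with h3 | h3
        · rw [h3, Nat.cast_zero, map_zero] at hn
          exact absurd hn zero_ne_one
        · exact h3
      exact hdown (rank_one_powers hM (ne_top_of_cut hn0 hc) (rank_one_ext (K := K) hW hr) hg hn hc)
  · intro hV ϖ h0 hϖ
    have hm : ∀ x : V, V.valuation (x : K) < 1 ↔ ϖ ∣ x := fun x => by
      rw [← Ideal.mem_span_singleton, ← hϖ, ValuationSubring.valuation_lt_one_iff]
    refine discrete_definable hK hV (ϖ := (ϖ : K)) (by simpa using h0) ((hm ϖ).mpr dvd_rfl) ?_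
    intro x hx
    obtain ⟨y, hy⟩ := (hm ⟨x, (ValuationSubring.valuation_le_one_iff _ _).mp hx.le⟩).mp hx
    have e : x = (ϖ : K) * (y : K) := congrArg (fun z : V => (z : K)) hy
    rw [e, map_mul]
    exact mul_le_of_le_one_right' ((ValuationSubring.valuation_le_one_iff _ _).mpr y.2)

end Pool.Agent.Results.MP_3554b5_lc.DefinableValuations
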