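import Pool.Agent.Q175.NF.Main

/-!
# The orderings of a field which is NIP, `NIP_n` or NTP2

Let `K` be a field which is NIP, or `NIP_n` for some `n`, or `NTP2`. The space of the orderings of
`K` is the disjoint union of finitely many open and closed sets, the sets of the orderings which
contain `b k`, `k = 1, …, r`. The orderings in one of these sets have the same natural place. Each
of the sets consists of one definable ordering, or else there is a definable valuation ring `O ≠ K`
which is convex for all orderings in the set, and the orderings in the set agree on the units
of `O`.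

In particular for every ordering `P` of `K`, `P` is definable or there is a definable valuation ring
`O ≠ K` which is convex for `P`, and the order topology of `P` is a definable V-topology.

The proof uses the theorem on places of the starting library `Pool.Agent.W882.Nip3` (the number of
pairwise incomparable places with values in the field of real numbers is bounded, in all fields
elementarily equivalent to `K`), a compactness argument, and the multiplicativity of the forms
`2 ^ n * ⟨1, b⟩` (Pfister).
-/

set_option autoImplicit false

namespace Pool.Agent.Results.MP_3554b5_lc.OrderingsOfTameFields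

open Pool.Agent.W882.Nip3 Pool.Agent.Q175.NF

/-- Let `K` be a field which is NIP (the hypothesis of `S14569`), or `NIP_n` for some `n`, or
`NTP2`. There are natural numbers `r`, `n` and elements `b k` of `K`, `k = 1, …, r`, such that:

(1) every ordering of `K` contains exactly one of the `b k`, and every `b k` is contained in an
ordering of `K`;

(2) orderings which contain the same `b k` have the same natural place;

(3) `x` is contained in all orderings of `K` which contain `b k` if and only if `x = s + b k * t`
with `s` and `t` sums of `n` squares;

(4) either there is only one ordering which contains `b k`, and it is definable in `K`, or `K` has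
a definable valuation ring `O ≠ K`, convex for all orderings which contain `b k`, and they agree on
the units of `O`. -/
theorem result (K : Type) [Field K] [FirstOrder.Ring.CompatibleRing K]
    (hK : NIPField K ∨ (∃ n, NIPnField n K) ∨ NTP2Field K) :
    ∃ (r n : ℕ) (b : Fin r → K),
      (∀ P, IsOrd P → ∃! k, b k ∈ P) ∧
      ∀ k, (∃ P, IsOrd P ∧ b k ∈ P) ∧
        (∀ P Q, IsOrd P → IsOrd Q → b k ∈ P → b k ∈ Q → SamePlace P Q) ∧
        (∀ x, (∀ P, IsOrd P → b k ∈ P → x ∈ P) ↔
          ∃ s t : Fin n → K, x = ∑ i, s i ^ 2 + b k * ∑ i, t i ^ 2) ∧
        ((∃ P, IsOrd P ∧ b k ∈ P ∧ (∀ Q, IsOrd Q → b k ∈ Q → Q = P) ∧ IsDef P) ∨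
          ∃ O : ValuationSubring K, O ≠ ⊤ ∧ IsDef (O : Set K) ∧
            (∀ P, IsOrd P → b k ∈ P → ∀ x y, x ∈ P → y - x ∈ P → y ∈ O → x ∈ O) ∧
            ∀ P Q, IsOrd P → IsOrd Q → b k ∈ P → b k ∈ Q →
              ∀ u ∈ O, u⁻¹ ∈ O → (u ∈ P ↔ u ∈ Q)) :=
  orderings' hK

end Pool.Agent.Results.MP_3554b5_lc.OrderingsOfTameFields
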