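import Pool.Agent.Q175.NFC.Uni
import Pool.Agent.Q175.NFC.Ram

/-!
# `NIP` fields of characteristic `p` with a valuation of dimension at least two

Let `K` be a `NIP` field of characteristic `p > 0` and `V` any valuation ring of `K`, `V ≠ K`. It is
not assumed that `V` is henselian or definable, or that the valued field `(K, V)` is `NIP`.

Assume that some finite extension `M` of `K` has a valuation ring `W` over `V` for which the norm
group of some finite separable extension of `M` is not dense. Examples: the value group of `W` is
not `n`-divisible and the residue field has a separable extension of degree `n`; the residue field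
has a finite separable extension whose norm map is not surjective; the value group has two elements
which are independent modulo `q`, for a prime `q`.

Then `K` has a henselian valuation ring `O ≠ K` which is definable and induces the same topology as
`V` (so the conclusion of Shelah's conjecture holds for `K`), a coarsening of `V` is henselian, and
any two such valuation rings `V` of `K` are dependent.

The first step holds for all fields which are `NIP`, `NIP_n` or `NTP2`, in all characteristics: the
topology of `V` is definable.
-/

set_option autoImplicit false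

namespace Pool.Agent.Results.MP_3554b5_lc.PositiveCharacteristic

open Pool.Agent.W882.Nip3 Pool.Agent.Q175.NF Pool.Agent.Q175.NFC
open IsLocalRing (ResidueField)

/-- The valuation ring `V` of `K` has a norm gap on a finite extension: there are a finite extension
`M` of `K`, a valuation ring `W` of `M` over `V`, a finite separable extension `L` of `M` and
elements `c`, `e ≠ 0` of `M` such that no `x` in `L` has `N_{L/M}(x) - c` of value smaller than the
value of `e`. -/
def FarFromNorms {K : Type} [Field K] (V : ValuationSubring K) : Prop :=
  ∃ (M : Type) (_ : Field M) (_ : Algebra K M) (W : ValuationSubring M)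
    (L : Type) (_ : Field L) (_ : Algebra M L), FiniteDimensional K M ∧ FiniteDimensional M L ∧
    Algebra.IsSeparable M L ∧ W.comap (algebraMap K M) = V ∧
    ∃ c e : M, e ≠ 0 ∧ ∀ x : L, W.valuation e ≤ W.valuation (Algebra.norm M x - c)

/-- A valuation ring `W` of a field `M` such that (1) the residue field has a finite separable
extension `F` and the value of some `a` is not a multiple of `[F : residue field]`, or (2) the
residue field has a finite separable extension `F` with a norm map which is not surjective, or
(3) for some prime `q` which is not the characteristic of `M` the values of `a` and `b` are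
independent modulo `q`: the value of `a` is not a multiple of `q` and the value of `b` is not the
sum of a multiple of `q` and a multiple of the value of `a`. (Value groups are written multiplicatively.) -/
def BigValuation {M : Type} [Field M] (W : ValuationSubring M) : Prop :=
  (∃ (F : Type) (_ : Field F) (_ : Algebra (ResidueField W) F),
    FiniteDimensional (ResidueField W) F ∧ Algebra.IsSeparable (ResidueField W) F ∧
    ∃ a : M, ∀ c : M, W.valuation c ^ Module.finrank (ResidueField W) F ≠ W.valuation a) ∨
  (∃ (F : Type) (_ : Field F) (_ : Algebra (ResidueField W) F),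
    FiniteDimensional (ResidueField W) F ∧ Algebra.IsSeparable (ResidueField W) F ∧
    ∃ r : ResidueField W, r ≠ 0 ∧ ∀ y : F, Algebra.norm (ResidueField W) y ≠ r) ∨
  (∃ (q : ℕ) (a b : M), q.Prime ∧ (q : M) ≠ 0 ∧ (∀ g : M, W.valuation g ^ q ≠ W.valuation a) ∧
    ∀ (g : M) (i : ℕ), W.valuation (g ^ q * a ^ i) ≠ W.valuation b)

/-- (1) If a finite extension of `K` has a valuation ring `W` over `V` which satisfies
`BigValuation`, then `V` satisfies `FarFromNorms`.

Let `V ≠ K` be a valuation ring of `K` which satisfies `FarFromNorms`.

(2) If `K` is `NIP`, or `NIP_n` for some `n`, or `NTP2`, then the topology of `V` is definable: some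
definable subset `S` of `V` contains all elements of value at most the value of some `b ≠ 0`.

(3) If `K` is `NIP` of characteristic `p > 0`, then `K` has a definable henselian valuation ring
`O ≠ K` which induces the same topology as `V`, and a henselian valuation ring `A ≠ K` which
contains `V`.

(4) If `K` is `NIP` of characteristic `p > 0` and `V'` is another such valuation ring, then some
valuation ring `C ≠ K` contains `V` and `V'`. -/
theorem result :
    (∀ (K : Type) [Field K] (V : ValuationSubring K) (M : Type) [Field M] [Algebra K M]
      [FiniteDimensional K M] (W : ValuationSubring M), W.comap (algebraMap K M) = V →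
      BigValuation W → FarFromNorms V) ∧
    (∀ (K : Type) [Field K] [FirstOrder.Ring.CompatibleRing K]
      (_ : NIPField K ∨ (∃ n, NIPnField n K) ∨ NTP2Field K) (V : ValuationSubring K), V ≠ ⊤ →
      FarFromNorms V → ∃ S : Set K, IsDefinable S ∧ (∀ x ∈ S, x ∈ V) ∧
        ∃ b, b ≠ 0 ∧ ∀ x, V.valuation x ≤ V.valuation b → x ∈ S) ∧
    (∀ (K : Type) [Field K] [FirstOrder.Ring.CompatibleRing K] (_ : NIPField K) (p : ℕ)
      (_ : p.Prime) (_ : CharP K p) (V : ValuationSubring K), V ≠ ⊤ → FarFromNorms V →
      (∃ O : ValuationSubring K, O ≠ ⊤ ∧ HenselianLocalRing O ∧ IsDefinable (O : Set K) ∧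
        ∃ t : K, t ≠ 0 ∧ (∀ x ∈ V, t * x ∈ O) ∧ ∀ x ∈ O, t * x ∈ V) ∧
      ∃ A : ValuationSubring K, A ≠ ⊤ ∧ HenselianLocalRing A ∧ V ≤ A) ∧
    (∀ (K : Type) [Field K] [FirstOrder.Ring.CompatibleRing K] (_ : NIPField K) (p : ℕ)
      (_ : p.Prime) (_ : CharP K p) (V V' : ValuationSubring K), V ≠ ⊤ → V' ≠ ⊤ →
      FarFromNorms V → FarFromNorms V' →
      ∃ C : ValuationSubring K, C ≠ ⊤ ∧ V ≤ C ∧ V' ≤ C) := by
  refine ⟨?_, ?_, ?_, ?_⟩
  · intro K _ V M _ _ _ W hW h
    have hgap : NormGap W := by
      rcases h with ⟨F, _, _, hF1, hF2, a, ha⟩ | ⟨F, _, _, hF1, hF2, r, hr, h⟩ |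
        ⟨q, a, b, hq, hqM, ha, hb⟩
      · exact gap_value W F ha
      · exact gap_residue W F hr h
      · exact gap_ram W hq ha hqM hb
    obtain ⟨L, iF, iA, h1, h2, c, e, he, h3⟩ := hgap
    exact ⟨M, inferInstance, inferInstance, W, L, iF, iA, inferInstance, h1, h2, hW, c, e, he, h3⟩
  · rintro K _ _ hK V hV ⟨M, _, _, W, L, _, _, h1, h2, h3, hW, c, e, he, h⟩
    exact vtop_tower hK hV hW L he h
  · rintro K _ _ hK p hp _ V hV ⟨M, _, _, W, L, _, _, h1, h2, h3, hW, c, e, he, h⟩
    have : Fact p.Prime := ⟨hp⟩
    exact main_norm hK p hV hW L he h
  · rintro K _ _ hK p hp _ V V' hV hV' ⟨M, _, _, W, L, _, _, h1, h2, h3, hW, c, e, he, h⟩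
      ⟨M', _, _, W', L', _, _, h1', h2', h3', hW', c', e', he', h'⟩
    have : Fact p.Prime := ⟨hp⟩
    let U : ℕ → ValuationSubring K := fun i => Nat.casesOn i V fun _ => V'
    refine dependent hK p (V := U) ?_ ?_
      (exists_not_mem (K := K) L he h (Om := SeparableClosure K))
    · intro i
      cases i with
      | zero => exact hV
      | succ n => exact hV'
    · intro i
      cases i with
      | zero => exact vtop_tower (Or.inl hK) hV hW L he h
      | succ n => exact vtop_tower (Or.inl hK) hV' hW' L' he' h'

end Pool.Agent.Results.MP_3554b5_lc.PositiveCharacteristic
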